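import Pool.Agent.helper15.XE.SpecL
import Pool.Agent.helper85.BVP.Boxes

/-! # Row xe:EDG: bound for the edge function of the primes (port of helper83/EC/EDG) -/

set_option autoImplicit false

namespace Pool.Agent.XE

open Finset ArithmeticFunction
open Pool.Agent.EC (tri TL wt mt Adm edg mnf tI tII tyI cvl KK yN UN)
open Pool.Agent.CH (rgh eU Mo ClP ClB)
open Pool.Agent.helper85.BVP (trunc trunc_apply Mr Zr abs_Mr_le)

theorem EDG_zero (U d : ℕ) (h : U ^ 2 < d) : eU U d = 0 := by
  unfold eU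
  rw [ArithmeticFunction.mul_apply]
  refine Finset.sum_eq_zero fun x hx => ?_
  rw [trunc_apply, trunc_apply]
  have h3 := (Nat.mem_divisorsAntidiagonal.1 hx).1
  by_cases h1 : x.1 ≤ U
  · by_cases h2 : x.2 ≤ U
    · exfalso
      have h4 : x.1 * x.2 ≤ U * U := Nat.mul_le_mul h1 h2
      rw [h3] at h4
      rw [sq] at h
      omega
    · rw [if_neg h2, mul_zero]
  · rw [if_neg h1, zero_mul]

theorem EDG_abs (U d : ℕ) : |eU U d| ≤ Real.log d := by
  unfold eU
  rw [ArithmeticFunction.mul_apply]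
  refine (Finset.abs_sum_le_sum_abs _ _).trans ?_
  have h1 : ∀ x ∈ d.divisorsAntidiagonal, |trunc Mr U x.1 * trunc vonMangoldt U x.2| ≤ vonMangoldt x.2 := by
    intro x _
    rw [abs_mul, trunc_apply, trunc_apply]
    have h2 : |if x.1 ≤ U then Mr x.1 else 0| ≤ 1 := by
      split_ifs
      · exact abs_Mr_le _
      · rw [abs_zero]
        exact zero_le_one
    have h3 : |if x.2 ≤ U then vonMangoldt x.2 else 0| ≤ vonMangoldt x.2 := by
      split_ifs
      · rw [abs_of_nonneg vonMangoldt_nonneg]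
      · rw [abs_zero]
        exact vonMangoldt_nonneg
    calc _ ≤ 1 * vonMangoldt x.2 := mul_le_mul h2 h3 (abs_nonneg _) zero_le_one
      _ = _ := one_mul _
  refine (Finset.sum_le_sum h1).trans (le_of_eq ?_)
  rw [Nat.sum_divisorsAntidiagonal' (f := fun _ b => vonMangoldt b)]
  exact vonMangoldt_sum

/-- **EDG** -/
theorem EDG : EDG_stmt := by
  classical
  intro C
  refine ⟨8, fun N hN j hj hj1 => ?_⟩
  unfold edg
  by_cases hr : rgh (yN N) j
  swap
  · rw [if_neg hr, if_neg hr, abs_zero]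
  rw [if_pos hr, if_pos hr, abs_neg]
  obtain ⟨hj0, hj2⟩ := Finset.mem_Ioc.1 hj
  have hNpos : (0 : ℝ) < N := by
    have : 0 < N := by omega
    exact_mod_cast this
  have hL : 0 < Real.log N := Real.log_pos (by
    have : 1 < N := by omega
    exact_mod_cast this)
  have h4L : 0 ≤ 5 * Real.log N := by linarith
  have hterm : ∀ c ∈ j.divisors.filter (fun c => c ≤ UN C N), |eU (UN C N) (j / c)| ≤
      if (N : ℝ) / Real.log N ^ (2 * C) ≤ (c : ℝ) then 5 * Real.log N else 0 := by
    intro c hc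
    obtain ⟨hc1, hc2⟩ := Finset.mem_filter.1 hc
    have hcd := Nat.dvd_of_mem_divisors hc1
    have hc0 : 0 < c := Nat.pos_of_mem_divisors hc1
    split_ifs with hcc
    · refine (EDG_abs _ _).trans ?_
      have h1 : 0 < j / c := Nat.div_pos (Nat.le_of_dvd (by omega) hcd) hc0
      have h2 : j / c ≤ N ^ 5 := by
        refine (Nat.div_le_self j c).trans (hj2.trans ?_)
        have h3 : 64 ≤ N ^ 2 := by nlinarith
        calc 64 * N ^ 3 ≤ N ^ 2 * N ^ 3 := Nat.mul_le_mul_right _ h3
          _ = N ^ 5 := by ring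
      have h5 : ((j / c : ℕ) : ℝ) ≤ (N : ℝ) ^ 5 := by exact_mod_cast h2
      have h6 := Real.log_le_log (by exact_mod_cast h1) h5
      rw [Real.log_pow] at h6
      push_cast at h6
      exact h6
    · have h1 : (UN C N) ^ 2 < j / c := by
        by_contra hcon
        rw [not_lt] at hcon
        apply hcc
        have h2 : j ≤ (UN C N) ^ 2 * c := by
          have h3 := Nat.div_mul_cancel hcd
          calc j = j / c * c := h3.symm
            _ ≤ _ := Nat.mul_le_mul_right c hcon
        have h4 : (N : ℝ) ^ 3 < ((UN C N : ℕ) : ℝ) ^ 2 * c := by exact_mod_cast lt_of_lt_of_le hj1 h2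
        have h5 : ((UN C N : ℕ) : ℝ) ≤ (N : ℝ) * Real.log N ^ C := by
          unfold UN
          exact Nat.floor_le (mul_nonneg (Nat.cast_nonneg N) (pow_nonneg hL.le C))
        have h6 : ((UN C N : ℕ) : ℝ) ^ 2 ≤ ((N : ℝ) * Real.log N ^ C) ^ 2 :=
          pow_le_pow_left₀ (Nat.cast_nonneg _) h5 2
        have h7 : (N : ℝ) ^ 3 < ((N : ℝ) * Real.log N ^ C) ^ 2 * c :=
          h4.trans_le (mul_le_mul_of_nonneg_right h6 (Nat.cast_nonneg c))
        have h8 : ((N : ℝ) * Real.log N ^ C) ^ 2 * c = (N : ℝ) ^ 2 * (c * Real.log N ^ (2 * C)) := by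
          rw [pow_mul' (Real.log N) 2 C]
          ring
        rw [h8, show (N : ℝ) ^ 3 = (N : ℝ) ^ 2 * N by ring] at h7
        have h9 := lt_of_mul_lt_mul_left h7 (by positivity)
        rw [div_le_iff₀ (pow_pos hL _)]
        exact h9.le
      rw [EDG_zero _ _ h1, abs_zero]
  refine (Finset.abs_sum_le_sum_abs _ _).trans ((Finset.sum_le_sum hterm).trans ?_)
  rw [← Finset.sum_filter, Finset.sum_const, nsmul_eq_mul, mul_comm]
  refine mul_le_mul_of_nonneg_left (Nat.cast_le.2 ?_) h4L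
  rw [← Finset.card_image_of_injective (f := fun c : ℕ => (c : ℝ)) _ Nat.cast_injective]
  refine Finset.card_le_card fun x hx => ?_
  obtain ⟨c, hc, rfl⟩ := Finset.mem_image.1 hx
  obtain ⟨hc1, hc2⟩ := Finset.mem_filter.1 hc
  obtain ⟨hc3, hc4⟩ := Finset.mem_filter.1 hc1
  refine Finset.mem_filter.2 ⟨?_, hc2, by exact_mod_cast hc4⟩
  exact Finset.mem_sup.2 ⟨c, hc3, Finset.mem_singleton_self _⟩

end Pool.Agent.XE
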