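import Pool.Agent.helper15.XE.SpecS

set_option autoImplicit false

namespace Pool.Agent.XE

open Finset ArithmeticFunction MeasureTheory
open Pool.Agent.EC (tri TL wt)
open Pool.Agent.SK (zN YN gj bgf uu)
open Pool.Agent.helper85.BVP (tau)

private theorem SPT_z (N : ℕ) (hN : 1 ≤ N) : 64 * N ^ 3 ≤ zN N ^ 7 := by
  have h1 : (1 : ℝ) ≤ (N : ℝ) ^ (3 / 7 : ℝ) := Real.one_le_rpow (by exact_mod_cast hN) (by norm_num)
  have h2 : 4 * (N : ℝ) ^ (3 / 7 : ℝ) < (zN N : ℝ) + 1 := Nat.lt_floor_add_one _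
  have h3 : 3 * (N : ℝ) ^ (3 / 7 : ℝ) ≤ (zN N : ℝ) := by linarith
  have h4 : (3 * (N : ℝ) ^ (3 / 7 : ℝ)) ^ 7 ≤ (zN N : ℝ) ^ 7 := by
    apply pow_le_pow_left₀ (by positivity) h3
  have h5 : ((N : ℝ) ^ (3 / 7 : ℝ)) ^ 7 = (N : ℝ) ^ 3 := by
    rw [← Real.rpow_natCast, ← Real.rpow_mul (Nat.cast_nonneg N), ← Real.rpow_natCast]
    norm_num
  rw [mul_pow, h5] at h4
  have h6 : (0 : ℝ) ≤ (N : ℝ) ^ 3 := by positivity
  have h7 : (64 : ℝ) * (N : ℝ) ^ 3 ≤ (zN N : ℝ) ^ 7 := by nlinarith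
  exact_mod_cast h7

private theorem SPT_tau (d : ℕ) (hd : 1 ≤ d) : 1 ≤ tau d := by
  unfold tau
  have : 1 ≤ #d.divisors := Finset.card_pos.mpr ⟨1, Nat.one_mem_divisors.mpr (by omega)⟩
  exact_mod_cast this

private theorem SPT_E (K : ℕ) : ∃ N₀ : ℕ, ∀ N : ℕ, N₀ ≤ N → ∀ d : ℕ, 1 ≤ d → d ≤ 64 * N ^ 3 → ∀ e : ℝ,
    |e| ≤ K * (1 + Real.log d) * tau d ^ K → |e| ≤ Real.log N ^ (K + 2) * tau d ^ (K + 2) := by
  have l1 : Filter.Tendsto (fun x : ℕ => Real.log x) Filter.atTop Filter.atTop :=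
    Real.tendsto_log_atTop.comp tendsto_natCast_atTop_atTop
  have e1 : ∀ᶠ N : ℕ in Filter.atTop, 1 ≤ N ∧ (8 * K + 8 : ℝ) ≤ Real.log N :=
    (Filter.eventually_ge_atTop 1).and (l1.eventually_ge_atTop _)
  obtain ⟨N₀, hN₀⟩ := Filter.eventually_atTop.1 e1
  refine ⟨N₀, fun N hN d hd1 hd e he => he.trans ?_⟩
  obtain ⟨f1, f2⟩ := hN₀ N hN
  have hK : (0 : ℝ) ≤ K := Nat.cast_nonneg K
  have hL1 : (1 : ℝ) ≤ Real.log N := by linarith
  have hd' : (1 : ℝ) ≤ d := by exact_mod_cast hd1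
  have hlog64 : Real.log 64 ≤ 5 := by
    have h64 : (64 : ℝ) = 2 ^ 6 := by norm_num
    rw [h64, Real.log_pow]
    have := Real.log_two_lt_d9
    push_cast
    linarith
  have hlogd : Real.log d ≤ 5 + 3 * Real.log N := by
    have hN0 : (0 : ℝ) < N := by exact_mod_cast f1
    have h1 : (d : ℝ) ≤ 64 * (N : ℝ) ^ 3 := by exact_mod_cast hd
    have h2 := Real.log_le_log (by linarith) h1
    rw [Real.log_mul (by norm_num) (by positivity), Real.log_pow] at h2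
    push_cast at h2
    linarith
  have hlogd0 : 0 ≤ Real.log d := Real.log_nonneg hd'
  have h3 : (K : ℝ) * (1 + Real.log d) ≤ Real.log N ^ (K + 2) := by
    calc (K : ℝ) * (1 + Real.log d) ≤ K * (6 + 3 * Real.log N) := by
          apply mul_le_mul_of_nonneg_left _ hK
          linarith
      _ ≤ Real.log N ^ 2 := by nlinarith
      _ ≤ Real.log N ^ (K + 2) := pow_le_pow_right₀ hL1 (by omega)
  have h4 := SPT_tau d hd1
  have h5 : tau d ^ K ≤ tau d ^ (K + 2) := pow_le_pow_right₀ h4 (by omega)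
  have h6 : 0 ≤ tau d ^ K := by positivity
  have h7 : 0 ≤ Real.log N ^ (K + 2) := by positivity
  exact mul_le_mul h3 h5 h6 h7

theorem SPT (h1 : Pool.Agent.SK.SPT_stmt) (h2 : Pool.Agent.SK.DEC_stmt) (h3 : SML_stmt)
    (h4 : Pool.Agent.SK.TI_stmt) : SPT_stmt := by
  intro r a b had A Bq
  rcases had with h0 | had
  · exact h1 r a b (Or.inl h0) A Bq
  obtain ⟨K, hK⟩ := h2 r
  obtain ⟨B1, hB1⟩ := h3 r a b had (A + 1) Bq
  obtain ⟨B2, hB2⟩ := h4 (A + 1) Bq (K + 2)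
  refine ⟨max B1 B2, fun B hB => ?_⟩
  obtain ⟨N1, hN1⟩ := hB1 B ((le_max_left _ _).trans hB)
  obtain ⟨N2, hN2⟩ := hB2 B ((le_max_right _ _).trans hB)
  obtain ⟨N3, hN3⟩ := SPT_E K
  have l1 : Filter.Tendsto (fun x : ℕ => Real.log x) Filter.atTop Filter.atTop :=
    Real.tendsto_log_atTop.comp tendsto_natCast_atTop_atTop
  obtain ⟨N4, hN4⟩ := Filter.eventually_atTop.1
    ((Filter.eventually_ge_atTop 1).and (l1.eventually_ge_atTop (129 : ℝ)))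
  refine ⟨max (max N1 N2) (max N3 N4), fun N hN v hv q hq hqL χ => ?_⟩
  have g1 : N1 ≤ N := (le_max_left _ _).trans ((le_max_left _ _).trans hN)
  have g2 : N2 ≤ N := (le_max_right _ _).trans ((le_max_left _ _).trans hN)
  have g3 : N3 ≤ N := (le_max_left _ _).trans ((le_max_right _ _).trans hN)
  have g4 : N4 ≤ N := (le_max_right _ _).trans ((le_max_right _ _).trans hN)
  obtain ⟨f1, f2⟩ := hN4 N g4
  obtain ⟨E₀, E₁, hE, hT⟩ := hK N (zN N) (YN N) a b f1 (SPT_z N f1)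
  have hE0 := hN2 N g2 v hv q hq hqL χ 0 (by norm_num) E₀
    (fun d hd1 hd => hN3 N g3 d hd1 hd _ (hE d hd1).1)
  have hE1 := hN2 N g2 v hv q hq hqL χ 1 le_rfl E₁
    (fun d hd1 hd => hN3 N g3 d hd1 hd _ (hE d hd1).2)
  have hS := hN1 N g1 v hv q hq hqL χ
  set T : ℝ := (N : ℝ) ^ 2 / Real.log N ^ (A + 1) with hTdef
  have hL0 : (0 : ℝ) < Real.log N := by linarith
  have hT0 : 0 ≤ T := by positivity
  have hsum : ∑ m ∈ Ioc 0 (64 * N ^ 3), ((TL N a b m : ℝ) : ℂ) * χ m * gj B N v m =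
      (∑ i ∈ Icc 1 7, (((-1 : ℝ) ^ (i + 1) * (Nat.choose 7 i : ℝ) : ℝ) : ℂ) *
        ∑ m ∈ Ioc 0 (64 * N ^ 3), (((∏ k, uu N (zN N) (YN N) a b i k) m : ℝ) : ℂ) * χ m * gj B N v m) +
      (∑ m ∈ Ioc 0 (64 * N ^ 3), (((E₀ * bgf (YN N) 0) m : ℝ) : ℂ) * χ m * gj B N v m) +
      ∑ m ∈ Ioc 0 (64 * N ^ 3), (((E₁ * bgf (YN N) 1) m : ℝ) : ℂ) * χ m * gj B N v m := by
    simp_rw [Finset.mul_sum]
    rw [Finset.sum_comm, ← Finset.sum_add_distrib, ← Finset.sum_add_distrib]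
    refine Finset.sum_congr rfl fun m hm => ?_
    rw [Finset.mem_Ioc] at hm
    rw [hT m (by omega) hm.2]
    push_cast
    rw [add_mul, add_mul, add_mul, add_mul, Finset.sum_mul, Finset.sum_mul]
    congr 2
    refine Finset.sum_congr rfl fun i _ => ?_
    ring
  rw [hsum]
  have hmain : ‖∑ i ∈ Icc 1 7, (((-1 : ℝ) ^ (i + 1) * (Nat.choose 7 i : ℝ) : ℝ) : ℂ) *
        ∑ m ∈ Ioc 0 (64 * N ^ 3), (((∏ k, uu N (zN N) (YN N) a b i k) m : ℝ) : ℂ) * χ m * gj B N v m‖ ≤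
      127 * T := by
    refine (norm_sum_le _ _).trans ?_
    have hb : ∀ i ∈ Icc 1 7, ‖(((-1 : ℝ) ^ (i + 1) * (Nat.choose 7 i : ℝ) : ℝ) : ℂ) *
        ∑ m ∈ Ioc 0 (64 * N ^ 3), (((∏ k, uu N (zN N) (YN N) a b i k) m : ℝ) : ℂ) * χ m * gj B N v m‖ ≤
        (Nat.choose 7 i : ℝ) * T := by
      intro i hi
      rw [norm_mul, Complex.norm_real, norm_mul, norm_pow, norm_neg, norm_one, one_pow, one_mul,
        Real.norm_natCast]
      exact mul_le_mul_of_nonneg_left (hS i hi) (Nat.cast_nonneg _)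
    refine (Finset.sum_le_sum hb).trans ?_
    rw [← Finset.sum_mul]
    have h127 : ∑ i ∈ Icc 1 7, (Nat.choose 7 i : ℝ) = 127 := by
      have : ∑ i ∈ Icc 1 7, Nat.choose 7 i = 127 := by decide
      exact_mod_cast this
    rw [h127]
  have htot : (127 * T + T) + T ≤ (N : ℝ) ^ 2 / Real.log N ^ A := by
    have e1 : (N : ℝ) ^ 2 / Real.log N ^ A = Real.log N * T := by
      rw [hTdef]
      field_simp
      ring
    rw [e1]
    nlinarith
  calc ‖_‖ ≤ (127 * T + T) + T := by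
        refine (norm_add_le _ _).trans (add_le_add ((norm_add_le _ _).trans (add_le_add hmain hE0)) hE1)
    _ ≤ _ := htot

end Pool.Agent.XE
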