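import Pool.Agent.helper15.XE.SpecL

set_option autoImplicit false

namespace Pool.Agent.XE

open Finset ArithmeticFunction
open Pool.Agent.EC (tri TL wt mt Adm edg mnf tI tII tyI cvl KK yN UN rst)
open Pool.Agent.CH (rgh Mo ClP ClB eU)
open Pool.Agent.helper85.BVP (beta)
open GD (kp ks)

theorem TII (h1 : BIA_stmt) (h2 : Pool.Agent.EC.VBD_stmt) : TII_stmt := by
  obtain ⟨-, -, N₂, hV⟩ := h2
  intro A
  obtain ⟨B, C, N₁, hB⟩ := h1 (A + 1) 5
  refine ⟨B, C, max N₁ (max N₂ ⌈Real.exp 2⌉₊), fun N hN V hVV r R hR => ?_⟩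
  have e1 : N₁ ≤ N := (le_max_left _ _).trans hN
  have e2 : N₂ ≤ N := (le_max_left _ _).trans ((le_max_right _ _).trans hN)
  have e3 : ⌈Real.exp 2⌉₊ ≤ N := (le_max_right _ _).trans ((le_max_right _ _).trans hN)
  have hNe : Real.exp 2 ≤ (N : ℝ) := (Nat.le_ceil _).trans (by exact_mod_cast e3)
  have hN0 : (0 : ℝ) < N := lt_of_lt_of_le (Real.exp_pos _) hNe
  have hL : 2 ≤ Real.log N := by rw [Real.le_log_iff_exp_le hN0]; exact hNe
  set L := Real.log N with hLd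
  have hL0 : 0 < L := by linarith
  have hsup : ∀ (f : ℕ → ℝ) (a : ℕ), rst N (UN C N) f a ≠ 0 → (N : ℝ) * Real.log N ^ C ≤ a := by
    intro f a ha
    unfold rst at ha
    by_cases h3 : rgh (yN N) a ∧ UN C N < a
    · have h4 := h3.2
      unfold UN at h4
      exact (Nat.lt_of_floor_lt h4).le
    · rw [if_neg h3] at ha
      exact absurd rfl ha
  have hv : ∀ Y : ℕ, Y ≤ 64 * N ^ 3 → _ := fun Y hY => hV N e2 (UN C N) Y hY
  have b1 := hB N e1 V hVV r R hR (rst N (UN C N) fun b => vonMangoldt b)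
    (rst N (UN C N) fun k => beta (UN C N) k) (hsup _) (hsup _) (fun Y hY => (hv Y hY).1)
    (fun Y hY => (hv Y hY).2.1)
  have b2 := hB N e1 V hVV r R hR (rst N (UN C N) fun k => eU (UN C N) k)
    (rst N (UN C N) fun _ => 1) (hsup _) (hsup _) (fun Y hY => (hv Y hY).2.2.1)
    (fun Y hY => (hv Y hY).2.2.2)
  have hterm : ∀ m : ℕ, |∑ j ∈ Z3 N, tII C N j * fV N V j * kp R (30 * m) (r m) j| ≤
      |∑ j ∈ Z3 N, cvl (rst N (UN C N) fun b => vonMangoldt b)
        (rst N (UN C N) fun k => beta (UN C N) k) j * fV N V j * kp R (30 * m) (r m) j| +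
      |∑ j ∈ Z3 N, cvl (rst N (UN C N) fun k => eU (UN C N) k)
        (rst N (UN C N) fun _ => 1) j * fV N V j * kp R (30 * m) (r m) j| := by
    intro m
    refine le_trans (le_of_eq ?_) (abs_sub _ _)
    rw [← Finset.sum_sub_distrib]
    congr 1
    refine Finset.sum_congr rfl fun j _ => ?_
    unfold tII
    ring
  refine (Finset.sum_le_sum fun m _ => hterm m).trans ?_
  rw [Finset.sum_add_distrib]
  refine (add_le_add b1 b2).trans ?_
  have h3 : (#V : ℝ) * (N : ℝ) ^ 2 / L ^ (A + 1) ≤ (#V : ℝ) * (N : ℝ) ^ 2 / (2 * L ^ A) := by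
    apply div_le_div_of_nonneg_left (by positivity) (by positivity)
    rw [pow_succ]
    have : 0 < L ^ A := by positivity
    nlinarith
  have h4 : (#V : ℝ) * (N : ℝ) ^ 2 / L ^ A = (#V : ℝ) * (N : ℝ) ^ 2 / (2 * L ^ A) + (#V : ℝ) * (N : ℝ) ^ 2 / (2 * L ^ A) := by
    field_simp
    ring
  rw [h4]
  exact add_le_add h3 h3

end Pool.Agent.XE
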