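import Pool.Agent.helper15.XE.SpecC
import Pool.Agent.helper85.EC.TLF

set_option autoImplicit false

namespace Pool.Agent.XE

open Finset ArithmeticFunction
open Pool.Agent.EC (TL cvl TUP TLe GdT TLF_P TLF_mem TLF_prod TLF_card TLF_range TLF_split)

theorem TLF : TLF_stmt := by
  classical
  intro r a b hAd δ hδ hGd
  obtain ⟨hab, hsa, hsb, hr'⟩ := hAd
  have hr : 3 ≤ r := by
    rcases hr' with h | h
    · omega
    · omega
  obtain ⟨S, hS1, hS2⟩ := hGd
  have : Nonempty (Fin r) := ⟨⟨0, by omega⟩⟩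
  obtain ⟨i₀, _, hi₀⟩ := Finset.exists_min_image (Finset.univ : Finset (Fin r)) a Finset.univ_nonempty
  set κ : ℝ := a i₀ with hκdef
  have hκ : 0 < κ := (hab i₀).1
  have hκa : ∀ i, κ ≤ a i := fun i => hi₀ i (Finset.mem_univ i)
  set M : ℝ := (4 / κ + 1) ^ r with hM
  have hM1 : 1 ≤ M := by
    rw [hM]
    have : 0 < 4 / κ := by positivity
    exact one_le_pow₀ (by linarith)
  refine ⟨⌈Real.exp (4 * M)⌉₊ + 64, fun N hN => ?_⟩
  have hN64 : 64 ≤ N := by omega
  have hNe : Real.exp (4 * M) ≤ N := by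
    have h1 : (⌈Real.exp (4 * M)⌉₊ : ℝ) ≤ N := by exact_mod_cast (by omega : ⌈Real.exp (4 * M)⌉₊ ≤ N)
    exact (Nat.le_ceil _).trans h1
  have hL : 4 * M ≤ Real.log N := by
    have := Real.log_le_log (Real.exp_pos _) hNe
    rwa [Real.log_exp] at this
  have hN1 : (1 : ℝ) < N := by exact_mod_cast (by omega : 1 < N)
  have hN0 : (0 : ℝ) < N := by linarith
  have hN64r : (64 : ℝ) ≤ N := by exact_mod_cast hN64
  have hN4 : (N : ℝ) ^ (4 : ℝ) = (N : ℝ) ^ 4 := by
    rw [← Real.rpow_natCast]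
    norm_num
  set α : ℕ → ℝ := fun k => (#((TLF_P N a b S k).filter fun p => ∏ i, p i = k) : ℝ) with hα
  set β : ℕ → ℝ := fun k => if (N : ℝ) ^ (1 + δ / 2) ≤ k ∧ k ≤ 64 * N ^ 3 then
    ∑ p ∈ TLF_P N a b Sᶜ k, (vonMangoldt (k / ∏ i, p i) : ℝ) else 0 with hβ
  have hαk : ∀ k, α k ≠ 0 → (N : ℝ) ^ (1 + δ) ≤ k ∧ (k : ℝ) ≤ (N : ℝ) ^ (2 - δ) := by
    intro k hk
    have h1 : ((TLF_P N a b S k).filter fun p => ∏ i, p i = k).Nonempty := by
      rw [Finset.nonempty_iff_ne_empty]
      intro h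
      apply hk
      simp only [hα, h, Finset.card_empty, Nat.cast_zero]
    obtain ⟨p, hp⟩ := h1
    rw [Finset.mem_filter] at hp
    obtain ⟨h2, h3⟩ := TLF_range (by omega) hp.1
    rw [hp.2] at h2 h3
    exact ⟨(Real.rpow_le_rpow_of_exponent_le hN1.le hS1).trans h2,
      h3.trans (Real.rpow_le_rpow_of_exponent_le hN1.le hS2)⟩
  refine ⟨α, β, ?_, ?_, ?_, ?_⟩
  · intro k hk
    exact (Real.rpow_le_rpow_of_exponent_le hN1.le (by linarith)).trans (hαk k hk).1
  · intro k hk
    by_contra hcon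
    apply hk
    simp only [hβ]
    rw [if_neg]
    rintro ⟨h1, _⟩
    exact hcon h1
  · intro k
    have hLM : M ≤ Real.log N ^ 2 := by nlinarith
    constructor
    · by_cases hk : α k = 0
      · rw [hk, abs_zero]
        positivity
      · obtain ⟨h1, h2⟩ := hαk k hk
        have hk1 : 1 ≤ k := by
          have h3 : (0 : ℝ) < k := lt_of_lt_of_le (by positivity) h1
          exact_mod_cast h3
        have h3 : (k : ℝ) ≤ (N : ℝ) ^ (4 : ℝ) :=
          h2.trans (Real.rpow_le_rpow_of_exponent_le hN1.le (by linarith))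
        have h4 := TLF_card N (by omega) a b κ hκ hκa S k hk1 h3
        have h5 : α k ≤ (#(TLF_P N a b S k) : ℝ) := by
          simp only [hα]
          exact_mod_cast Finset.card_filter_le _ _
        have h6 : 0 ≤ α k := by
          simp only [hα]
          positivity
        rw [abs_of_nonneg h6]
        linarith
    · by_cases hk : (N : ℝ) ^ (1 + δ / 2) ≤ k ∧ k ≤ 64 * N ^ 3
      · simp only [hβ]
        rw [if_pos hk]
        have hk1 : 1 ≤ k := by
          have h3 : (0 : ℝ) < k := lt_of_lt_of_le (by positivity) hk.1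
          exact_mod_cast h3
        have hk2 : (k : ℝ) ≤ 64 * (N : ℝ) ^ 3 := by exact_mod_cast hk.2
        have h3 : (k : ℝ) ≤ (N : ℝ) ^ (4 : ℝ) := by
          rw [hN4]
          have : 0 ≤ (N : ℝ) ^ 3 := by positivity
          nlinarith
        have h4 := TLF_card N (by omega) a b κ hκ hκa Sᶜ k hk1 h3
        have h5 : Real.log k ≤ 4 * Real.log N := by
          have h6 := Real.log_le_log (by exact_mod_cast hk1) h3
          rwa [Real.log_rpow hN0] at h6
        have h7 : ∀ p ∈ TLF_P N a b Sᶜ k, (vonMangoldt (k / ∏ i, p i) : ℝ) ≤ 4 * Real.log N := by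
          intro p hp
          refine vonMangoldt_le_log.trans ?_
          refine le_trans ?_ h5
          rcases Nat.eq_zero_or_pos (k / ∏ i, p i) with h8 | h8
          · rw [h8, Nat.cast_zero, Real.log_zero]
            exact Real.log_natCast_nonneg k
          · exact Real.log_le_log (by exact_mod_cast h8) (by exact_mod_cast Nat.div_le_self _ _)
        have h8 : 0 ≤ ∑ p ∈ TLF_P N a b Sᶜ k, (vonMangoldt (k / ∏ i, p i) : ℝ) :=
          Finset.sum_nonneg fun _ _ => vonMangoldt_nonneg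
        rw [abs_of_nonneg h8]
        refine (Finset.sum_le_card_nsmul _ _ _ h7).trans ?_
        rw [nsmul_eq_mul]
        have h9 : 0 ≤ Real.log N := by linarith
        calc (#(TLF_P N a b Sᶜ k) : ℝ) * (4 * Real.log N) ≤ M * (4 * Real.log N) :=
              mul_le_mul_of_nonneg_right h4 (by linarith)
          _ ≤ Real.log N ^ 2 := by nlinarith
      · simp only [hβ]
        rw [if_neg hk, abs_zero]
        positivity
  · intro j hj hjN
    have hj' : N ^ 3 < j ∧ j ≤ 64 * N ^ 3 := by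
      rw [Z3, Finset.mem_Ioc] at hj
      exact ⟨hjN, hj.2⟩
    have hj0 : j ≠ 0 := by omega
    have hj64 : j ≤ 64 * N ^ 3 := hj'.2
    have hTL : TL N a b j = ∑ p ∈ TUP N a b j, (vonMangoldt (j / ∏ i, p i) : ℝ) := rfl
    have hmap : ∀ p ∈ TUP N a b j, ∏ i ∈ S, p i ∈ j.divisors := by
      intro p hp
      unfold TUP at hp
      rw [Finset.mem_filter] at hp
      rw [Nat.mem_divisors]
      refine ⟨?_, hj0⟩
      exact (Finset.prod_dvd_prod_of_subset _ _ _ (Finset.subset_univ S)).trans hp.2.2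
    rw [hTL, ← Finset.sum_fiberwise_of_maps_to hmap]
    rw [cvl, Nat.sum_divisorsAntidiagonal (fun x y => α x * β y)]
    refine Finset.sum_congr rfl fun k hk => ?_
    rw [Nat.mem_divisors] at hk
    rw [TLF_split N a b S j k hj0 hk.1, Finset.sum_product]
    dsimp only
    rw [Finset.sum_const, nsmul_eq_mul]
    have hαdef : (#((TLF_P N a b S k).filter fun p => ∏ i, p i = k) : ℝ) = α k := rfl
    rw [hαdef]
    by_cases hα0 : α k = 0
    · rw [hα0, zero_mul, zero_mul]
    · obtain ⟨h1, h2⟩ := hαk k hα0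
      congr 1
      simp only [hβ]
      rw [if_pos]
      obtain ⟨e, rfl⟩ := hk.1
      have hk0 : 0 < k := by
        rcases Nat.eq_zero_or_pos k with h | h
        · rw [h, zero_mul] at hj0
          exact absurd rfl hj0
        · exact h
      rw [Nat.mul_div_cancel_left e hk0]
      constructor
      · have h3 : (N : ℝ) ^ (3 : ℝ) ≤ (k : ℝ) * e := by
          have h4 : N ^ 3 ≤ k * e := hj'.1.le
          have h5 : ((N ^ 3 : ℕ) : ℝ) ≤ ((k * e : ℕ) : ℝ) := by exact_mod_cast h4
          push_cast at h5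
          have h6 : (N : ℝ) ^ (3 : ℝ) = (N : ℝ) ^ 3 := by
            rw [← Real.rpow_natCast]
            norm_num
          rw [h6]
          exact h5
        have h4 : (N : ℝ) ^ (3 : ℝ) = (N : ℝ) ^ (2 - δ) * (N : ℝ) ^ (1 + δ) := by
          rw [← Real.rpow_add hN0]
          congr 1
          ring
        have h5 : (N : ℝ) ^ (2 - δ) * (N : ℝ) ^ (1 + δ) ≤ (N : ℝ) ^ (2 - δ) * e := by
          rw [← h4]
          exact h3.trans (mul_le_mul_of_nonneg_right h2 (Nat.cast_nonneg e))
        have h6 : (N : ℝ) ^ (1 + δ) ≤ e := le_of_mul_le_mul_left h5 (by positivity)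
        exact (Real.rpow_le_rpow_of_exponent_le hN1.le (by linarith)).trans h6
      · have : e ≤ k * e := Nat.le_mul_of_pos_left e hk0
        omega

end Pool.Agent.XE
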