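import Pool.Agent.helper15.XE.SpecL

/-! # Row xe:TRA: the weight in residue classes (port of helper78/W3/TRA) -/

set_option autoImplicit false

namespace Pool.Agent.XE

open Finset ArithmeticFunction
open Pool.Agent.EC (tri TL wt)

private theorem TRA_diff (h2 : TRV_stmt) (v : ℝ) (N q K : ℕ) (hN : 1 ≤ N) (h01 : wv N v 0 = wv N v 1) (r s : ℕ)
    (hrs : r < s) (hs : s < q) :
    |∑ k ∈ range K, wv N v (s + k * q) - ∑ k ∈ range K, wv N v (r + k * q)| ≤ 2 := by
  set x : ℕ → ℕ := fun i => max 1 ((if i % 2 = 0 then r else s) + (i / 2) * q) with hx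
  have hmono : Monotone x := by
    refine monotone_nat_of_le_succ fun i => ?_
    rw [hx]
    refine max_le_max le_rfl ?_
    rcases Nat.even_or_odd' i with ⟨m, rfl | rfl⟩
    · have e1 : 2 * m % 2 = 0 := by omega
      have e2 : (2 * m + 1) % 2 ≠ 0 := by omega
      have e3 : 2 * m / 2 = m := by omega
      have e4 : (2 * m + 1) / 2 = m := by omega
      rw [if_pos e1, if_neg e2, e3, e4]
      omega
    · have e1 : (2 * m + 1) % 2 ≠ 0 := by omega
      have e2 : (2 * m + 1 + 1) % 2 = 0 := by omega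
      have e3 : (2 * m + 1) / 2 = m := by omega
      have e4 : (2 * m + 1 + 1) / 2 = m + 1 := by omega
      rw [if_neg e1, if_pos e2, e3, e4, add_mul, one_mul]
      omega
  have h3 := h2 N hN v x hmono (le_max_left _ _) (2 * K)
  have hval : ∀ j, wv N v (max 1 j) = wv N v j := by
    intro j
    rcases Nat.eq_zero_or_pos j with h | h
    · rw [h, max_eq_left (by omega), h01]
    · rw [max_eq_right h]
  have h4 : ∀ k, wv N v (x (2 * k)) = wv N v (r + k * q) := by
    intro k
    have e1 : 2 * k % 2 = 0 := by omega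
    have e3 : 2 * k / 2 = k := by omega
    rw [hx]
    simp only [e1, e3, if_true]
    exact hval _
  have h5 : ∀ k, wv N v (x (2 * k + 1)) = wv N v (s + k * q) := by
    intro k
    have e1 : (2 * k + 1) % 2 ≠ 0 := by omega
    have e3 : (2 * k + 1) / 2 = k := by omega
    rw [hx]
    simp only [e3, if_neg e1]
    exact hval _
  have h6 : ∀ n : ℕ, ∑ k ∈ range n, |wv N v (s + k * q) - wv N v (r + k * q)| ≤
      ∑ i ∈ range (2 * n), |wv N v (x (i + 1)) - wv N v (x i)| := by
    intro n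
    induction n with
    | zero => simp
    | succ n ih =>
      rw [Finset.sum_range_succ, show 2 * (n + 1) = 2 * n + 1 + 1 by ring, Finset.sum_range_succ,
        Finset.sum_range_succ, h5, h4]
      have h7 := abs_nonneg (wv N v (x (2 * n + 1 + 1)) - wv N v (s + n * q))
      linarith
  rw [← Finset.sum_sub_distrib]
  exact (Finset.abs_sum_le_sum_abs _ _).trans ((h6 K).trans h3)

private theorem TRA_big (h2 : TRV_stmt) (N : ℕ) (hN : 1 ≤ N) (v : ℝ) (q a : ℕ) (hq : 1 ≤ q)
    (hf0 : ∀ j, wv N v j ≠ 0 → N ^ 3 < j ∧ j + 6 ≤ 3 * N ^ 3) :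
    |∑ j ∈ Z3 N with j ≡ a [MOD q], wv N v j - Xv N v / q| ≤ 2 := by
  have hfW : ∀ j, j ∉ Z3 N → wv N v j = 0 := by
    intro j hj
    by_contra hc
    obtain ⟨h3, h4⟩ := hf0 j hc
    exact hj (Finset.mem_Ioc.2 ⟨by omega, by omega⟩)
  have hN3 : 1 ≤ N ^ 3 := Nat.one_le_pow _ _ (by omega)
  have h0 : wv N v 0 = 0 := by
    by_contra hc
    have := (hf0 0 hc).1
    omega
  have h01 : wv N v 0 = wv N v 1 := by
    rw [h0]
    by_contra hc
    have := (hf0 1 (fun h => hc h.symm)).1
    omega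
  set K : ℕ := 64 * N ^ 3 + 1 with hK
  set S : ℕ → ℝ := fun r => ∑ j ∈ (Z3 N).filter (fun j => j % q = r), wv N v j with hS
  have hSr : ∀ r < q, S r = ∑ k ∈ range K, wv N v (r + k * q) := by
    intro r hr
    have e1 : ∑ k ∈ range K, wv N v (r + k * q) =
        ∑ j ∈ (range K).image (fun k => r + k * q), wv N v j := by
      rw [Finset.sum_image]
      intro k _ k' _ hkk
      have h3 : k * q = k' * q := by
        simp only at hkk
        omega
      exact Nat.eq_of_mul_eq_mul_right (by omega) h3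
    rw [e1]
    refine Finset.sum_subset_zero_on_sdiff ?_ ?_ fun _ _ => rfl
    · intro j hj
      rw [Finset.mem_filter] at hj
      rw [Finset.mem_image]
      refine ⟨j / q, ?_, ?_⟩
      · rw [Finset.mem_range, hK]
        have h3 := (Finset.mem_Ioc.1 hj.1).2
        have h4 := Nat.div_le_self j q
        omega
      · have h3 := Nat.mod_add_div' j q
        rw [hj.2] at h3
        exact h3
    · intro j hj
      rw [Finset.mem_sdiff, Finset.mem_image] at hj
      obtain ⟨⟨k, _, hk⟩, h4⟩ := hj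
      apply hfW
      intro hjW
      apply h4
      rw [Finset.mem_filter]
      refine ⟨hjW, ?_⟩
      rw [← hk, Nat.add_mul_mod_self_right, Nat.mod_eq_of_lt hr]
  have hdiff : ∀ r < q, ∀ s < q, |S r - S s| ≤ 2 := by
    intro r hr s hs
    rcases lt_trichotomy r s with h | h | h
    · rw [hSr r hr, hSr s hs, abs_sub_comm]
      exact TRA_diff h2 v N q K (by omega) h01 r s h hs
    · rw [h, sub_self, abs_zero]
      norm_num
    · rw [hSr r hr, hSr s hs]
      exact TRA_diff h2 v N q K (by omega) h01 s r h hr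
  have hX : Xv N v = ∑ r ∈ range q, S r := by
    unfold Xv
    rw [hS]
    refine (Finset.sum_fiberwise_of_maps_to (g := fun j => j % q) (t := range q) ?_ _).symm
    intro j _
    exact Finset.mem_range.2 (Nat.mod_lt _ (by omega))
  have hA : ∑ j ∈ (Z3 N).filter (fun j => j ≡ a [MOD q]), wv N v j = S (a % q) := rfl
  rw [hA]
  have haq : a % q < q := Nat.mod_lt _ (by omega)
  have hq0 : (0 : ℝ) < q := by exact_mod_cast (show 0 < q by omega)
  have h3 : (q : ℝ) * (S (a % q) - Xv N v / q) = ∑ r ∈ range q, (S (a % q) - S r) := by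
    rw [Finset.sum_sub_distrib, ← hX, Finset.sum_const, Finset.card_range, nsmul_eq_mul]
    field_simp
  have h4 : |(q : ℝ) * (S (a % q) - Xv N v / q)| ≤ q * 2 := by
    rw [h3]
    refine (Finset.abs_sum_le_sum_abs _ _).trans ?_
    calc ∑ r ∈ range q, |S (a % q) - S r| ≤ ∑ r ∈ range q, (2 : ℝ) :=
          Finset.sum_le_sum fun r hr => hdiff _ haq r (Finset.mem_range.1 hr)
      _ = q * 2 := by rw [Finset.sum_const, Finset.card_range, nsmul_eq_mul]
  rw [abs_mul, abs_of_pos hq0] at h4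
  exact le_of_mul_le_mul_left h4 hq0

private theorem TRA_wv (N : ℕ) (hN : 1 ≤ N) (v : ℝ) (j : ℕ) : 0 ≤ wv N v j ∧ wv N v j ≤ 1 := by
  have hN0 : (0 : ℝ) < N := by exact_mod_cast hN
  unfold wv tri
  refine ⟨le_max_left _ _, max_le (by norm_num) ?_⟩
  have : 0 ≤ |Real.log j - v| / (1 / (N : ℝ)) := by positivity
  linarith

theorem TRA (h1 : TRV_stmt) (h2 : WVB_stmt) : TRA_stmt := by
  classical
  obtain ⟨N₀, hN₀, hW⟩ := h2
  refine ⟨2 + 64 * (N₀ : ℝ) ^ 3, by positivity, fun N hN v hv q a hq => ?_⟩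
  by_cases hNN : N₀ ≤ N
  · have h3 := TRA_big h1 N (by omega) v q a hq (fun j => ((hW N hNN).1 v hv).2.2.2 j |>.2.2.1)
    refine h3.trans ?_
    have : (0 : ℝ) ≤ 64 * (N₀ : ℝ) ^ 3 := by positivity
    linarith
  · push Not at hNN
    have hq0 : (1 : ℝ) ≤ q := by exact_mod_cast hq
    have hw := TRA_wv N (by omega) v
    have c1 : ∀ s ⊆ Z3 N, 0 ≤ ∑ j ∈ s, wv N v j ∧ ∑ j ∈ s, wv N v j ≤ 64 * (N₀ : ℝ) ^ 3 := by
      intro s hs
      refine ⟨Finset.sum_nonneg fun j _ => (hw j).1, ?_⟩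
      have h4 : ∑ j ∈ s, wv N v j ≤ ∑ j ∈ s, (1 : ℝ) := Finset.sum_le_sum fun j _ => (hw j).2
      rw [Finset.sum_const, nsmul_eq_mul, mul_one] at h4
      have h5 : (#s : ℝ) ≤ 64 * (N : ℝ) ^ 3 := by
        have h6 := Finset.card_le_card hs
        unfold Z3 at h6
        rw [Nat.card_Ioc, Nat.sub_zero] at h6
        exact_mod_cast h6
      have h7 : (N : ℝ) ^ 3 ≤ (N₀ : ℝ) ^ 3 := pow_le_pow_left₀ (by positivity) (by exact_mod_cast hNN.le) 3
      linarith
    obtain ⟨a1, a2⟩ := c1 _ (Finset.filter_subset (fun j => j ≡ a [MOD q]) (Z3 N))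
    obtain ⟨b1, b2⟩ := c1 _ (Finset.Subset.refl (Z3 N))
    have b3 : 0 ≤ Xv N v / q := div_nonneg b1 (by positivity)
    have b4 : Xv N v / q ≤ 64 * (N₀ : ℝ) ^ 3 := (div_le_self b1 hq0).trans b2
    rw [abs_le]
    constructor <;> linarith

end Pool.Agent.XE
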